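import Pool.Agent.G9.Stmts

set_option autoImplicit false

/-!
# Row GIR: no short cycles, bound for the girth
-/

namespace Pool.Agent.G9.H24

open Pool.Agent.G9

theorem gir : GirStmt := by
  intro V G r hr
  rw [SimpleGraph.le_egirth]
  intro a w hw
  by_contra hlt
  have hl : w.length < r := by
    rw [not_le] at hlt
    exact_mod_cast hlt
  have h3 : 3 ≤ w.length := hw.three_le_length
  obtain ⟨l, hle⟩ : ∃ l, l = w.length := ⟨_, rfl⟩
  rw [← hle] at hl h3
  have : NeZero l := ⟨by omega⟩
  have hmem : (fun i : ZMod l => w.getVert i.val) ∈ CycT l G := by
    constructor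
    · intro i j hij
      have h1 := hw.getVert_injOn' (x₁ := i.val) (x₂ := j.val)
        (by
          have := ZMod.val_lt i
          simp only [Set.mem_ofPred_eq]
          omega)
        (by
          have := ZMod.val_lt j
          simp only [Set.mem_ofPred_eq]
          omega) hij
      exact ZMod.val_injective l h1
    · intro i
      have hi := ZMod.val_lt i
      have h1 : (i + 1).val = (i.val + 1) % l := by
        rw [ZMod.val_add, ZMod.val_one'' (by omega)]
      have h2 := w.adj_getVert_succ (i := i.val) (by omega)
      show G.Adj (w.getVert i.val) (w.getVert (i + 1).val)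
      rw [h1]
      by_cases h : i.val + 1 < l
      · rw [Nat.mod_eq_of_lt h]
        exact h2
      · have h4 : i.val + 1 = l := by omega
        have h5 : w.getVert (i.val + 1) = a := by
          have h6 : i.val + 1 = w.length := h4.trans hle
          rw [h6]
          exact w.getVert_length
        have h7 : (i.val + 1) % l = 0 := by
          exact Nat.mod_eq_zero_of_dvd ⟨1, by omega⟩
        rw [h5] at h2
        rw [h7, SimpleGraph.Walk.getVert_zero]
        exact h2
  rw [hr l h3 hl] at hmem
  exact hmem

end Pool.Agent.G9.H24
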